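import Pool.Agent.R905.WM.Lin
import Pool.Agent.R904.CU.Defs

/-!
# Ordinary primes: definitions
-/

set_option autoImplicit false

open AlgebraicGeometry CategoryTheory Pool.Agent.R904.CU Pool.Agent.R905.WM

namespace Pool.Agent.R905.OR

section linear

variable {E : Type} [Field E] {A B : Type} [AddCommGroup A] [Module E A]
  [AddCommGroup B] [Module E B]

/-- the part of slope `< j` of the operator `φ`: the sum of the generalized eigenspaces for the
eigenvalues of valuation `< j` -/
def slopeLT (val : AddValuation E (WithTop ℝ)) (φ : Module.End E A) (j : ℤ) : Submodule E A :=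
  sp φ {μ | val μ < ((j : ℝ) : WithTop ℝ)}

/-- The slope filtration of `φ` and the filtration `F` are opposite: for all `j` the space is the
direct sum of its part of slope `< j` and of `F j`. (For a weakly admissible filtered `φ`-module this
means that the Newton and Hodge polygons coincide.) -/
def Opposite (val : AddValuation E (WithTop ℝ)) (φ : Module.End E A) (F : ℤ → Submodule E A) :
    Prop :=
  ∀ j, IsCompl (slopeLT val φ j) (F j)

/-- `u` is strictly compatible with the filtrations -/
def Strict (F : ℤ → Submodule E A) (G : ℤ → Submodule E B) (u : A →ₗ[E] B) : Prop :=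
  (∀ j, ∀ x ∈ F j, u x ∈ G j) ∧ ∀ j x, u x ∈ G j → ∃ y ∈ F j, u y = u x

/-- `(B, ψ, G)` is the Tate twist of `(A, φ, F)` by `-r`, where `c` is the number of elements of the
residue field -/
def IsTateTwist (c : E) (r : ℕ) (φ : Module.End E A) (F : ℤ → Submodule E A)
    (ψ : Module.End E B) (G : ℤ → Submodule E B) : Prop :=
  ∃ e : A ≃ₗ[E] B, Scales (c ^ r) φ ψ e ∧ ∀ j x, e x ∈ G (j + r) ↔ x ∈ F j

/-- `(A, φ, F)` is a direct factor of `(B, ψ, G)` -/
def IsFactor (φ : Module.End E A) (F : ℤ → Submodule E A) (ψ : Module.End E B)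
    (G : ℤ → Submodule E B) : Prop :=
  ∃ (s : A →ₗ[E] B) (t : B →ₗ[E] A), (∀ x, t (s x) = x) ∧ Commutes φ ψ s ∧ Commutes ψ φ t ∧
    (∀ j, ∀ x ∈ F j, s x ∈ G j) ∧ ∀ j, ∀ x ∈ G j, t x ∈ F j

end linear

/-- For a place `v`, a separated scheme `X` of finite type over `K` and an integer `n`: the space
`H v X n`, to be thought of as the rigid cohomology with compact supports `H^n_c` of the reduction of `X`
at `v` (for the places where `X` has a good model), with the scalars extended to an algebraic closure
`E v` of the completion, with the operator `φ` (the linear Frobenius) and the Hodge filtration `F`. -/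
structure FilteredCohomology (K : Type) [Field K] (Pl : Type) (E : Pl → Type)
    [∀ v, Field (E v)] where
  H : ∀ (_ : Pl) (X : Scheme.{0}), (X ⟶ Spec (.of K)) → ℤ → Type
  [group : ∀ v X f n, AddCommGroup (H v X f n)]
  [module : ∀ v X f n, Module (E v) (H v X f n)]
  φ : ∀ v X f n, Module.End (E v) (H v X f n)
  F : ∀ v X f n, ℤ → Submodule (E v) (H v X f n)

attribute [instance] FilteredCohomology.group FilteredCohomology.module

namespace FilteredCohomology

variable {K : Type} [Field K] {Pl : Type} {E : Pl → Type} [∀ v, Field (E v)]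
  (T : FilteredCohomology K Pl E)

/-- the linear maps from `H v X n` to `H v Y m` -/
abbrev Map (v : Pl) (X : Scheme.{0}) (f : X ⟶ Spec (.of K)) (n : ℤ) (Y : Scheme.{0})
    (g : Y ⟶ Spec (.of K)) (m : ℤ) : Type := T.H v X f n →ₗ[E v] T.H v Y g m

/-- `u` commutes with `φ` and is strictly compatible with the Hodge filtrations -/
def Compatible {v : Pl} {X Y : Scheme.{0}} {f : X ⟶ Spec (.of K)} {g : Y ⟶ Spec (.of K)}
    {n m : ℤ} (u : T.Map v X f n Y g m) : Prop :=
  Commutes (T.φ v X f n) (T.φ v Y g m) u ∧ Strict (T.F v X f n) (T.F v Y g m) u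

/-- a long exact sequence `… → H^n_c(U) → H^n_c(X) → H^n_c(Z) → H^{n+1}_c(U) → …` of compatible maps
at the place `v` -/
def Sequence (v : Pl) {X Z U : Scheme.{0}} (f : X ⟶ Spec (.of K)) (g : Z ⟶ Spec (.of K))
    (h : U ⟶ Spec (.of K)) : Prop :=
  ∃ (a : ∀ n, T.Map v U h n X f n) (b : ∀ n, T.Map v X f n Z g n)
    (c : ∀ n m, T.Map v Z g n U h m),
    (∀ n, T.Compatible (a n) ∧ T.Compatible (b n) ∧ T.Compatible (c n (n + 1))) ∧
    ∀ n m, m = n + 1 → Exact (a n) (b n) ∧ Exact (b n) (c n m) ∧ Exact (c n m) (a m)

/-- the long exact sequence of a closed subscheme `Z` of `X` and its complement `U`, at almost all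
places -/
def LongExact (O : Filter Pl) : Prop :=
  ∀ (X Z U : Scheme.{0}) (f : X ⟶ Spec (.of K)) (i : Z ⟶ X) (j : U ⟶ X), SepFinType K X f →
    IsClosedImmersion i → IsOpenImmersion j → Set.range i = (Set.range j)ᶜ →
    ∀ᶠ v in O, T.Sequence v f (i ≫ f) (j ≫ f)

/-- `H^{n+2r}_c(E') = H^n_c(X)(-r)` for an affine bundle `E' → X` of rank `r`, at almost all places -/
def Bundle (O : Filter Pl) (c : ∀ v, E v) : Prop :=
  ∀ (r : ℕ) (E' X : Scheme.{0}) (π : E' ⟶ X) (f : X ⟶ Spec (.of K)), SepFinType K X f →
    SepFinType K E' (π ≫ f) → IsAffineBundle r π → ∀ᶠ v in O, ∀ n m : ℤ, m = n + 2 * r →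
    IsTateTwist (c v) r (T.φ v X f n) (T.F v X f n) (T.φ v E' (π ≫ f) m) (T.F v E' (π ≫ f) m)

/-- if `Z` is open and closed in `X`, then `H^n_c(Z)` is a direct factor of `H^n_c(X)` at almost all
places -/
def Clopen (O : Filter Pl) : Prop :=
  ∀ (X Z : Scheme.{0}) (f : X ⟶ Spec (.of K)) (i : Z ⟶ X), SepFinType K X f →
    IsClosedImmersion i → IsOpenImmersion i → ∀ᶠ v in O, ∀ n : ℤ,
    IsFactor (T.φ v Z (i ≫ f) n) (T.F v Z (i ≫ f) n) (T.φ v X f n) (T.F v X f n)

/-- the places at which `X` is ordinary: the slope and Hodge filtrations of all `H^n_c(X)` are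
opposite -/
def Ord (val : ∀ v, AddValuation (E v) (WithTop ℝ)) (X : Scheme.{0}) (f : X ⟶ Spec (.of K)) :
    Set Pl :=
  {v | ∀ n, Opposite (val v) (T.φ v X f n) (T.F v X f n)}

/-- The formal properties of rigid cohomology with compact supports and its Hodge filtration. `O` is
the filter of the sets of almost all places (the cofinite sets if `K` is a number field), `c v` is the
number of elements of the residue field of `v`, and `val v` is the valuation with `val v (c v) = 1`. -/
structure IsCohomology (O : Filter Pl) (c : ∀ v, E v)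
    (val : ∀ v, AddValuation (E v) (WithTop ℝ)) : Prop where
  finite : ∀ v X f n, Module.Finite (E v) (T.H v X f n)
  norm : ∀ v, val v (c v) = 1
  longExact : T.LongExact O
  bundle : T.Bundle O c
  clopen : T.Clopen O
  point : ∀ᶠ v in O, v ∈ T.Ord val (Spec (.of K)) (𝟙 _)

end FilteredCohomology

/-- `L` is a notion of largeness for sets of places which is insensitive to the change at few places:
supersets of large sets are large, and a large set intersected with a set of almost all places is
large. (Examples: the infinite sets, the sets of positive lower density, the sets of density one.) -/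
def IsLargeness {Pl : Type} (O : Filter Pl) (L : Set Pl → Prop) : Prop :=
  (∀ A B, L A → A ⊆ B → L B) ∧ ∀ A, ∀ B ∈ O, L A → L (A ∩ B)

end Pool.Agent.R905.OR
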