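import Pool.Agent.R905.OR.Defs

/-!
# Positive density of sets of places
-/

set_option autoImplicit false
set_option linter.all false

open NumberField IsDedekindDomain Filter

namespace Pool.Agent.R905.OR

/-- the finite places of the number field `K` -/
abbrev Place (K : Type) [Field K] [NumberField K] : Type := HeightOneSpectrum (𝓞 K)

/-- the number of places in `A` of norm at most `x` -/
noncomputable def count {K : Type} [Field K] [NumberField K] (A : Set (Place K)) (x : ℕ) : ℕ :=
  Set.ncard {v | v ∈ A ∧ Ideal.absNorm v.asIdeal ≤ x}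

/-- the set `A` of places has positive (lower) density -/
def PosDensity {K : Type} [Field K] [NumberField K] (A : Set (Place K)) : Prop :=
  ∃ ε : ℝ, 0 < ε ∧ ∀ᶠ x : ℕ in atTop, ε * count (Set.univ : Set (Place K)) x ≤ count A x

section

variable {K : Type} [Field K] [NumberField K]

lemma count_finite (A : Set (Place K)) (x : ℕ) :
    {v : Place K | v ∈ A ∧ Ideal.absNorm v.asIdeal ≤ x}.Finite := by
  have h1 : {I : Ideal (𝓞 K) | Ideal.absNorm I ≤ x}.Finite := Ideal.finite_setOfPred_absNorm_le x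
  refine Set.Finite.subset (h1.preimage (f := fun v : Place K => v.asIdeal) ?_) ?_
  · intro v _ w _ h
    exact HeightOneSpectrum.ext h
  · rintro v ⟨-, hv⟩
    exact hv

lemma infinite_place : Infinite (Place K) := by
  have hex : ∀ p : Nat.Primes, ∃ v : Place K, ((p : ℕ) : 𝓞 K) ∈ v.asIdeal := by
    intro p
    have hne : Ideal.span {((p : ℕ) : 𝓞 K)} ≠ ⊤ := by
      intro h
      have h1 : Ideal.absNorm (Ideal.span {((p : ℕ) : 𝓞 K)}) = 1 := by
        rw [h, Ideal.absNorm_top]
      rw [Ideal.absNorm_span_singleton] at h1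
      have h2 : (Algebra.norm ℤ ((p : ℕ) : 𝓞 K)) = (p : ℤ) ^ Module.finrank ℤ (𝓞 K) := by
        have := Algebra.norm_algebraMap (S := 𝓞 K) ((p : ℕ) : ℤ)
        simpa using this
      rw [h2, Int.natAbs_pow, Int.natAbs_natCast] at h1
      have h3 : Module.finrank ℤ (𝓞 K) ≠ 0 := by
        rw [RingOfIntegers.rank]
        exact Module.finrank_pos.ne'
      exact (Nat.one_lt_pow h3 p.2.one_lt).ne' h1
    obtain ⟨M, hM, hle⟩ := Ideal.exists_le_maximal _ hne
    have hp : ((p : ℕ) : 𝓞 K) ∈ M := hle (Ideal.mem_span_singleton_self _)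
    refine ⟨⟨M, hM.isPrime, ?_⟩, hp⟩
    rintro rfl
    have : ((p : ℕ) : 𝓞 K) = 0 := hp
    exact p.2.ne_zero (by exact_mod_cast this)
  choose f hf using hex
  refine Infinite.of_injective f fun p q hpq => ?_
  by_contra hne
  have hne' : (p : ℕ) ≠ q := fun h => hne (Subtype.ext h)
  have hcop : IsCoprime ((p : ℕ) : ℤ) ((q : ℕ) : ℤ) :=
    Nat.isCoprime_iff_coprime.2 ((Nat.coprime_primes p.2 q.2).2 hne')
  obtain ⟨a, b, hab⟩ := hcop
  have h1 : (1 : 𝓞 K) ∈ (f p).asIdeal := by
    have h2 : ((a * (p : ℕ) + b * (q : ℕ) : ℤ) : 𝓞 K) = 1 := by rw [hab]; simp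
    rw [← h2]
    push_cast
    refine Ideal.add_mem _ (Ideal.mul_mem_left _ _ (hf p)) (Ideal.mul_mem_left _ _ ?_)
    rw [hpq]
    exact hf q
  exact (f p).isPrime.ne_top ((Ideal.eq_top_iff_one _).2 h1)

lemma count_tendsto : Tendsto (count (Set.univ : Set (Place K))) atTop atTop := by
  haveI := infinite_place (K := K)
  rw [tendsto_atTop]
  intro b
  obtain ⟨s, hs⟩ := Infinite.exists_subset_card_eq (Place K) b
  refine eventually_atTop.2 ⟨s.sup fun v => Ideal.absNorm v.asIdeal, fun x hx => ?_⟩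
  rw [← hs, ← Set.ncard_coe_finset]
  refine Set.ncard_le_ncard ?_ (count_finite _ x)
  intro v hv
  exact ⟨trivial, (Finset.le_sup (f := fun v : Place K => Ideal.absNorm v.asIdeal) hv).trans hx⟩

theorem posDensity_largeness : IsLargeness (cofinite : Filter (Place K)) PosDensity := by
  constructor
  · rintro A B ⟨ε, hε, h⟩ hAB
    refine ⟨ε, hε, h.mono fun x hx => hx.trans ?_⟩
    have h1 : count A x ≤ count B x :=
      Set.ncard_le_ncard (fun v hv => ⟨hAB hv.1, hv.2⟩) (count_finite _ x)
    exact_mod_cast h1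
  · rintro A B hB ⟨ε, hε, h⟩
    refine ⟨ε / 2, half_pos hε, ?_⟩
    have hfin : Bᶜ.Finite := hB
    have h1 : ∀ x, count A x ≤ count (A ∩ B) x + Bᶜ.ncard := by
      intro x
      refine le_trans ?_ (Set.ncard_union_le _ _)
      refine Set.ncard_le_ncard ?_ ((count_finite _ x).union hfin)
      rintro v ⟨hv, hx⟩
      by_cases hvB : v ∈ B
      · exact Or.inl ⟨⟨hv, hvB⟩, hx⟩
      · exact Or.inr hvB
    have h2 : ∀ᶠ x : ℕ in atTop, (Bᶜ.ncard : ℝ) ≤ ε / 2 * count (Set.univ : Set (Place K)) x := by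
      have h3 : Tendsto (fun x : ℕ => ε / 2 * (count (Set.univ : Set (Place K)) x : ℝ)) atTop
          atTop :=
        (tendsto_natCast_atTop_atTop.comp count_tendsto).const_mul_atTop (half_pos hε)
      exact h3.eventually_ge_atTop _
    filter_upwards [h, h2] with x hx hx2
    have h4 : (count A x : ℝ) ≤ count (A ∩ B) x + Bᶜ.ncard := by exact_mod_cast h1 x
    linarith

theorem infinite_largeness {Pl : Type} : IsLargeness (cofinite : Filter Pl) Set.Infinite := by
  constructor
  · intro A B hA hAB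
    exact hA.mono hAB
  · intro A B hB hA
    have hfin : Bᶜ.Finite := hB
    intro h
    apply hA
    refine (h.union hfin).subset fun v hv => ?_
    by_cases hvB : v ∈ B
    · exact Or.inl ⟨hv, hvB⟩
    · exact Or.inr hvB

end

/-- the filter of the sets which contain a dense open set -/
def openDense (Pl : Type) [TopologicalSpace Pl] : Filter Pl where
  sets := {s | ∃ o, IsOpen o ∧ Dense o ∧ o ⊆ s}
  univ_sets := ⟨Set.univ, isOpen_univ, dense_univ, Set.subset_univ _⟩
  sets_of_superset := by
    rintro s t ⟨o, ho, hd, h⟩ hst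
    exact ⟨o, ho, hd, h.trans hst⟩
  inter_sets := by
    rintro s t ⟨o, ho, hd, h⟩ ⟨o', ho', hd', h'⟩
    exact ⟨o ∩ o', ho.inter ho', hd.inter_of_isOpen_right hd' ho',
      Set.inter_subset_inter h h'⟩

theorem dense_largeness {Pl : Type} [TopologicalSpace Pl] :
    IsLargeness (openDense Pl) (Dense : Set Pl → Prop) := by
  constructor
  · intro A B hA hAB
    exact hA.mono hAB
  · rintro A B ⟨o, ho, hd, h⟩ hA
    exact (hA.inter_of_isOpen_right hd ho).mono (Set.inter_subset_inter_right _ h)

end Pool.Agent.R905.OR
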