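import Pool.Agent.R905.OR.Defs

/-!
# Ordinary primes: linear algebra
-/

set_option autoImplicit false
set_option linter.all false

open Pool.Agent.R905.WM

namespace Pool.Agent.R905.OR

section five

variable {E : Type} [Field E] [CharZero E] [IsAlgClosed E] {val : AddValuation E (WithTop ℝ)}
  {V₁ V₂ V₃ V₄ V₅ : Type} [AddCommGroup V₁] [Module E V₁] [AddCommGroup V₂] [Module E V₂]
  [AddCommGroup V₃] [Module E V₃] [AddCommGroup V₄] [Module E V₄] [AddCommGroup V₅] [Module E V₅]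
  [Module.Finite E V₁] [Module.Finite E V₂] [Module.Finite E V₃] [Module.Finite E V₄]
  {φ₁ : Module.End E V₁} {φ₂ : Module.End E V₂} {φ₃ : Module.End E V₃}
  {φ₄ : Module.End E V₄} {φ₅ : Module.End E V₅}
  {F₁ : ℤ → Submodule E V₁} {F₂ : ℤ → Submodule E V₂} {F₃ : ℤ → Submodule E V₃}
  {F₄ : ℤ → Submodule E V₄} {F₅ : ℤ → Submodule E V₅}
  {f₁ : V₁ →ₗ[E] V₂} {f₂ : V₂ →ₗ[E] V₃} {f₃ : V₃ →ₗ[E] V₄} {f₄ : V₄ →ₗ[E] V₅}

theorem opposite_five (h₁ : Commutes φ₁ φ₂ f₁) (h₂ : Commutes φ₂ φ₃ f₂) (h₃ : Commutes φ₃ φ₄ f₃)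
    (h₄ : Commutes φ₄ φ₅ f₄) (s₁ : Strict F₁ F₂ f₁) (s₂ : Strict F₂ F₃ f₂)
    (s₃ : Strict F₃ F₄ f₃) (s₄ : Strict F₄ F₅ f₄) (e₂ : Exact f₁ f₂) (e₃ : Exact f₂ f₃)
    (e₄ : Exact f₃ f₄) (c₁ : Opposite val φ₁ F₁) (c₂ : Opposite val φ₂ F₂)
    (c₄ : Opposite val φ₄ F₄) (c₅ : Opposite val φ₅ F₅) : Opposite val φ₃ F₃ := by
  intro j
  have d : ∀ {V : Type} [AddCommGroup V] [Module E V] {P Q : Submodule E V}, IsCompl P Q →
      ∀ x ∈ P, x ∈ Q → x = 0 := fun h x hx hx' => (Submodule.disjoint_def.1 h.disjoint) x hx hx'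
  have t : ∀ {V : Type} [AddCommGroup V] [Module E V] {P Q : Submodule E V}, IsCompl P Q →
      ∀ x, ∃ a ∈ P, ∃ b ∈ Q, a + b = x := fun h x =>
    Submodule.mem_sup.1 (by rw [h.sup_eq_top]; trivial)
  constructor
  · rw [Submodule.disjoint_def]
    intro x hx hx'
    have h1 : f₃ x = 0 := d (c₄ j) _ (sp_map h₃ hx) (s₃.1 j x hx')
    obtain ⟨w, hw⟩ := (e₃ x).1 h1
    have hxs : f₂ w ∈ slopeLT val φ₃ j := by rw [hw]; exact hx
    obtain ⟨y, hy, hyw⟩ := sp_lift h₂ hxs
    obtain ⟨y', hy', hyw'⟩ := s₂.2 j w (by rw [hw]; exact hx')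
    have h2 : f₂ (y - y') = 0 := by rw [map_sub, hyw, hyw', sub_self]
    obtain ⟨z, hz⟩ := (e₂ _).1 h2
    obtain ⟨a, ha, b, hb, rfl⟩ := t (c₁ j) z
    have h3 : y - f₁ a = y' + f₁ b := by
      rw [map_add] at hz
      rw [sub_eq_iff_eq_add, add_assoc, add_comm (f₁ b), hz]
      abel
    have h4 : y - f₁ a = 0 := by
      refine d (c₂ j) _ (Submodule.sub_mem _ hy (sp_map h₁ ha)) ?_
      rw [h3]
      exact Submodule.add_mem _ hy' (s₁.1 j b hb)
    rw [← hw, ← hyw, sub_eq_zero.1 h4]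
    exact (e₂ _).2 ⟨a, rfl⟩
  · rw [codisjoint_iff, eq_top_iff]
    intro y _
    obtain ⟨a, ha, b, hb, hab⟩ := t (c₄ j) (f₃ y)
    have h1 : f₄ a + f₄ b = 0 := by
      rw [← map_add, hab]
      exact (e₄ _).2 ⟨y, rfl⟩
    have h2 : f₄ a = 0 := by
      refine d (c₅ j) _ (sp_map h₄ ha) ?_
      rw [eq_neg_of_add_eq_zero_left h1]
      exact Submodule.neg_mem _ (s₄.1 j b hb)
    have h3 : f₄ b = 0 := by rwa [h2, zero_add] at h1
    obtain ⟨a', rfl⟩ := (e₄ _).1 h2
    obtain ⟨b', rfl⟩ := (e₄ _).1 h3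
    obtain ⟨a'', ha'', h5⟩ := sp_lift h₃ ha
    obtain ⟨b'', hb'', h6⟩ := s₃.2 j b' hb
    have h7 : f₃ (y - a'' - b'') = 0 := by
      rw [map_sub, map_sub, h5, h6, ← hab]
      abel
    obtain ⟨z, hz⟩ := (e₃ _).1 h7
    obtain ⟨p, hp, r, hr, rfl⟩ := t (c₂ j) z
    have h8 : y = (a'' + f₂ p) + (b'' + f₂ r) := by
      rw [map_add] at hz
      have : y = (y - a'' - b'') + a'' + b'' := by abel
      rw [this, ← hz]
      abel
    rw [h8]
    exact Submodule.add_mem_sup (Submodule.add_mem _ ha'' (sp_map h₂ hp))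
      (Submodule.add_mem _ hb'' (s₂.1 j r hr))

end five

section other

variable {E : Type} [Field E] [CharZero E] {val : AddValuation E (WithTop ℝ)} {A B : Type}
  [AddCommGroup A] [Module E A] [AddCommGroup B] [Module E B]
  {φ : Module.End E A} {F : ℤ → Submodule E A} {ψ : Module.End E B} {G : ℤ → Submodule E B}

theorem opposite_factor (h : IsFactor φ F ψ G) (hG : Opposite val ψ G) : Opposite val φ F := by
  obtain ⟨s, t, hst, hs, ht, hs', ht'⟩ := h
  intro j
  constructor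
  · rw [Submodule.disjoint_def]
    intro x hx hx'
    have h1 := (Submodule.disjoint_def.1 (hG j).disjoint) (s x) (sp_map hs hx) (hs' j x hx')
    rw [← hst x, h1, map_zero]
  · rw [codisjoint_iff, eq_top_iff]
    intro y _
    have h1 : s y ∈ slopeLT val ψ j ⊔ G j := by
      rw [(hG j).sup_eq_top]
      trivial
    obtain ⟨a, ha, b, hb, hab⟩ := Submodule.mem_sup.1 h1
    have h2 : y = t a + t b := by rw [← map_add, hab, hst]
    rw [h2]
    exact Submodule.add_mem_sup (sp_map ht ha) (ht' j b hb)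

lemma val_shift {c : E} (hc : val c = 1) (r : ℕ) (j : ℤ) (μ : E) :
    val (c ^ r * μ) < (((j + r : ℤ) : ℝ) : WithTop ℝ) ↔ val μ < ((j : ℝ) : WithTop ℝ) := by
  rw [AddValuation.map_mul, AddValuation.map_pow, hc]
  have h1 : (r • (1 : WithTop ℝ)) = ((r : ℝ) : WithTop ℝ) := by
    rw [nsmul_one]
    rfl
  rw [h1]
  induction val μ using WithTop.recTopCoe with
  | top =>
    simp
  | coe x =>
    rw [← WithTop.coe_add, WithTop.coe_lt_coe, WithTop.coe_lt_coe]
    push_cast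
    constructor <;> intro h <;> linarith

theorem opposite_twist {c : E} (hc : val c = 1) {r : ℕ} (h : IsTateTwist c r φ F ψ G) :
    Opposite val φ F ↔ Opposite val ψ G := by
  obtain ⟨e, he, hF⟩ := h
  have hc0 : c ≠ 0 := by
    rintro rfl
    rw [AddValuation.map_zero] at hc
    exact absurd hc (by decide)
  have hcr : c ^ r ≠ 0 := pow_ne_zero r hc0
  have he1 : ∀ x, e.toLinearMap (φ x) = (c ^ r)⁻¹ • ψ (e.toLinearMap x) := by
    intro x
    change e (φ x) = (c ^ r)⁻¹ • ψ (e x)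
    rw [he, smul_smul, inv_mul_cancel₀ hcr, one_smul]
  have he2 : ∀ y, e.symm.toLinearMap (ψ y) = c ^ r • φ (e.symm.toLinearMap y) := by
    intro y
    change e.symm (ψ y) = c ^ r • φ (e.symm y)
    apply e.injective
    rw [map_smul, ← he, e.apply_symm_apply, e.apply_symm_apply]
  have hs : ∀ j x, x ∈ slopeLT val φ j ↔ e x ∈ slopeLT val ψ (j + r) := by
    intro j x
    constructor
    · intro hx
      refine sp_map_twist (f := e.toLinearMap) (c := (c ^ r)⁻¹) (inv_ne_zero hcr) he1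
        (fun ν hν => ?_) hx
      have := (val_shift hc r j ((c ^ r)⁻¹ * ν)).2 hν
      rw [mul_inv_cancel_left₀ hcr] at this
      exact this
    · intro hx
      have := sp_map_twist (f := e.symm.toLinearMap) (c := c ^ r) hcr he2
        (T := {μ | val μ < ((j : ℝ) : WithTop ℝ)}) (fun ν hν => (val_shift hc r j ν).1 hν) hx
      change e.symm (e x) ∈ _ at this
      rwa [e.symm_apply_apply] at this
  have key : ∀ j : ℤ, IsCompl (slopeLT val φ j) (F j) ↔
      IsCompl (slopeLT val ψ (j + r)) (G (j + r)) := by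
    intro j
    have h1 : slopeLT val φ j = (slopeLT val ψ (j + r)).comap e.toLinearMap := by
      ext x
      exact hs j x
    have h2 : F j = (G (j + r)).comap e.toLinearMap := by
      ext x
      exact (hF j x).symm
    rw [h1, h2]
    exact ((Submodule.orderIsoMapComap e).symm.isCompl_iff).symm
  constructor
  · intro h j
    have := (key (j - r)).1 (h (j - r))
    rwa [sub_add_cancel] at this
  · intro h j
    exact (key j).2 (h (j + r))

end other

end Pool.Agent.R905.OR
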