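import Pool.Agent.R905.OR.Lin
import Pool.Agent.R905.WM.Models

/-!
# Ordinary primes and smooth affine cubic hypersurfaces: proofs
-/

set_option autoImplicit false
set_option linter.all false

open AlgebraicGeometry CategoryTheory MvPolynomial Pool.Agent.R904.CU Pool.Agent.R905.WM

namespace Pool.Agent.R905.OR

/-! ### one system of quadrics -/

section quad

variable {K : Type} [Field K] {P : SchProp K} (h2 : TwoOfThree (SepFinType K) P)
  (hb : BundleInvariant (SepFinType K) P) (hpt : P (Spec (.of K)) (𝟙 _))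

include h2 hpt

lemma g_empty (Z : Scheme.{0}) [IsEmpty Z] (f : Z ⟶ Spec (.of K)) : P Z f := by
  let Y : Scheme.{0} := Spec (.of K)
  let i : Z ⟶ Y := (isInitialOfIsEmpty (X := Z)).to Y
  have hi : IsClosedImmersion i := inferInstance
  have hr : Set.range i = (Set.range (𝟙 Y : Y ⟶ Y))ᶜ := by
    have ha : Set.range (𝟙 Y : Y ⟶ Y) = Set.univ := Set.range_eq_univ.2 (𝟙 Y : Y ⟶ Y).surjective
    rw [ha, Set.compl_univ]
    exact Set.range_eq_empty _
  have h3 := (h2 Y Z Y (𝟙 _) i (𝟙 Y) ⟨inferInstance, inferInstance, inferInstance⟩ hi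
    inferInstance hr).2.2 hpt (by
      rw [Category.id_comp]
      exact hpt)
  have h4 : i ≫ 𝟙 _ = f := (isInitialOfIsEmpty (X := Z)).hom_ext _ _
  rwa [h4] at h3

lemma g_iso {X Y : Scheme.{0}} (f : X ⟶ Spec (.of K)) (g : Y ⟶ Spec (.of K)) (e : X ≅ Y)
    (he : e.hom ≫ g = f) (hY : SepFinType K Y g) (h : P Y g) : P X f := by
  have hem : IsEmpty ((⊥ : Y.Opens) : Scheme.{0}) := ⟨fun x => x.2⟩
  have h1 := g_empty h2 hpt ((⊥ : Y.Opens) : Scheme.{0}) ((⊥ : Y.Opens).ι ≫ g)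
  have h3 := (h2 Y X ((⊥ : Y.Opens) : Scheme.{0}) g e.hom (⊥ : Y.Opens).ι hY inferInstance
    inferInstance (by
      have ha : Set.range e.hom = Set.univ := Set.range_eq_univ.2 e.hom.surjective
      have hb' : Set.range (⊥ : Y.Opens).ι = ∅ := by
        rw [Scheme.Opens.range_ι]
        rfl
      rw [ha, hb', Set.compl_empty])).2.2 h h1
  rwa [he] at h3

include hb

lemma g_open {σ κ : Type} [Fintype σ] [Fintype κ] (g : κ → MvPolynomial σ K)
    (h1 : P _ (hyp (bigPoly g))) :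
    P (openU g) ((openU g).ι ≫ Spec.map (CommRingCat.ofHom (algebraMap K (MvPolynomial σ K)))) := by
  have hA : SepFinType K (Spec (.of (MvPolynomial σ K)))
    (Spec.map (CommRingCat.ofHom (algebraMap K (MvPolynomial σ K)))) :=
    (cls_sepFinType K).affine _ inferInstance
  have hU := (cls_sepFinType K).opn _ _ _ (openU g).ι inferInstance hA
  have hcomm : proj g ≫ (openU g).ι ≫
      Spec.map (CommRingCat.ofHom (algebraMap K (MvPolynomial σ K))) =
      Spec.map (CommRingCat.ofHom (algebraMap K (Ring1 g))) := by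
    rw [← Category.assoc, proj_ι]
    unfold proj0
    rw [← Spec.map_comp, ← CommRingCat.ofHom_comp]
  have hE : SepFinType K (Spec (.of (Ring1 g))) (proj g ≫ (openU g).ι ≫
      Spec.map (CommRingCat.ofHom (algebraMap K (MvPolynomial σ K)))) := by
    rw [hcomm]
    exact (cls_sepFinType K).affine _ inferInstance
  rw [← hb _ _ _ (proj g) _ hU hE (isAffineBundle_proj g), hcomm]
  let e : (MvPolynomial (κ ⊕ σ) K ⧸ Ideal.span {bigPoly g}) ≃ₐ[K] Ring1 g :=
    Ideal.quotientEquivAlg _ _ (sumAlgEquiv K κ σ) (by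
      rw [Ideal.map_span, Set.image_singleton]
      congr 2
      exact (sumAlgEquiv_bigPoly g).symm)
  refine g_iso h2 hpt _ (hyp (bigPoly g))
    (Scheme.Spec.mapIso e.toRingEquiv.toCommRingCatIso.op) ?_
    ((cls_sepFinType K).affine _ inferInstance) h1
  change Spec.map (CommRingCat.ofHom e.toRingEquiv.toRingHom) ≫ hyp (bigPoly g) = _
  unfold hyp
  rw [← Spec.map_comp, ← CommRingCat.ofHom_comp]
  congr 2
  exact e.toAlgHom.comp_algebraMap

lemma g_space {σ : Type} [Fintype σ] : P (Spec (.of (MvPolynomial σ K)))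
    (Spec.map (CommRingCat.ofHom (algebraMap K (MvPolynomial σ K)))) := by
  have hA : SepFinType K (Spec (.of (MvPolynomial σ K)))
    (Spec.map (CommRingCat.ofHom (algebraMap K (MvPolynomial σ K)))) :=
    (cls_sepFinType K).affine _ inferInstance
  have hbun : IsAffineBundle (Fintype.card σ)
      (Spec.map (CommRingCat.ofHom (algebraMap K (MvPolynomial σ K)))) := by
    intro x
    refine ⟨.of K, 𝟙 _, σ, inferInstance, 𝟙 _, rfl, inferInstance, ⟨x, rfl⟩, ?_⟩
    exact IsPullback.of_horiz_isIso ⟨by rw [Category.comp_id, Category.id_comp]; rfl⟩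
  have h3 := hb _ _ _ (Spec.map (CommRingCat.ofHom (algebraMap K (MvPolynomial σ K))))
    (𝟙 (Spec (.of K))) ⟨inferInstance, inferInstance, inferInstance⟩
    (by rw [Category.comp_id]; exact hA) hbun
  rw [Category.comp_id] at h3
  exact h3.2 hpt

lemma g_affine (B : Type) [CommRing B] [Algebra K B] {σ κ : Type} [Fintype σ] [Fintype κ]
    (g : κ → MvPolynomial σ K)
    (e : (MvPolynomial σ K ⧸ Ideal.span (Set.range g)) ≃ₐ[K] B)
    (h0 : P _ (hyp (bigPoly g))) :
    P (Spec (.of B)) (Spec.map (CommRingCat.ofHom (algebraMap K B))) := by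
  have hA : SepFinType K (Spec (.of (MvPolynomial σ K)))
    (Spec.map (CommRingCat.ofHom (algebraMap K (MvPolynomial σ K)))) :=
    (cls_sepFinType K).affine _ inferInstance
  have h1 := g_open h2 hb hpt g h0
  have h3 := g_space h2 hb hpt (σ := σ)
  have h4 := (h2 _ _ _ _ (closedZ g) (openU g).ι hA inferInstance inferInstance
    (range_closedZ g)).2.2 h3 h1
  have h5 : closedZ g ≫ Spec.map (CommRingCat.ofHom (algebraMap K (MvPolynomial σ K))) =
      Spec.map (CommRingCat.ofHom (algebraMap K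
        (MvPolynomial σ K ⧸ Ideal.span (Set.range g)))) := by
    unfold closedZ
    rw [← Spec.map_comp, ← CommRingCat.ofHom_comp]
  rw [h5] at h4
  refine g_iso h2 hpt _ _ (Scheme.Spec.mapIso e.toRingEquiv.toCommRingCatIso.op) ?_
    ((cls_sepFinType K).affine _ inferInstance) h4
  change Spec.map (CommRingCat.ofHom e.toRingEquiv.toRingHom) ≫ _ = _
  rw [← Spec.map_comp, ← CommRingCat.ofHom_comp]
  congr 2
  exact e.toAlgHom.comp_algebraMap

end quad

/-! ### filters -/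

/-- the filter generated by `O` and a family of sets -/
def gen {Pl ι : Type _} (O : Filter Pl) (A : ι → Set Pl) : Filter Pl where
  sets := {s | ∃ o ∈ O, ∃ l : List ι, o ∩ {v | ∀ i ∈ l, v ∈ A i} ⊆ s}
  univ_sets := ⟨Set.univ, Filter.univ_mem, [], Set.subset_univ _⟩
  sets_of_superset := by
    rintro s t ⟨o, ho, l, h⟩ hst
    exact ⟨o, ho, l, h.trans hst⟩
  inter_sets := by
    rintro s t ⟨o, ho, l, h⟩ ⟨o', ho', l', h'⟩
    refine ⟨o ∩ o', Filter.inter_mem ho ho', l ++ l', ?_⟩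
    rintro v ⟨⟨hv, hv'⟩, hl⟩
    exact ⟨h ⟨hv, fun i hi => hl i (List.mem_append_left _ hi)⟩,
      h' ⟨hv', fun i hi => hl i (List.mem_append_right _ hi)⟩⟩

lemma gen_le {Pl ι : Type _} (O : Filter Pl) (A : ι → Set Pl) : gen O A ≤ O :=
  fun s hs => ⟨s, hs, [], Set.inter_subset_left⟩

lemma mem_gen {Pl ι : Type _} (O : Filter Pl) (A : ι → Set Pl) (i : ι) : A i ∈ gen O A :=
  ⟨Set.univ, Filter.univ_mem, [i], fun v hv => hv.2 i (List.mem_singleton.2 rfl)⟩

namespace FilteredCohomology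

variable {K : Type} [Field K] {Pl : Type} {E : Pl → Type} [∀ v, Field (E v)]
  [∀ v, CharZero (E v)] [∀ v, IsAlgClosed (E v)] {T : FilteredCohomology K Pl E}
  {O : Filter Pl} {c : ∀ v, E v} {val : ∀ v, AddValuation (E v) (WithTop ℝ)}

/-- `X` is ordinary at almost all places (for the filter `G`) -/
def Ev (T : FilteredCohomology K Pl E) (val : ∀ v, AddValuation (E v) (WithTop ℝ))
    (G : Filter Pl) : SchProp K := fun X f => T.Ord val X f ∈ G

lemma ord_sequence (hT : T.IsCohomology O c val) {v : Pl} {X Z U : Scheme.{0}}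
    {f : X ⟶ Spec (.of K)} {g : Z ⟶ Spec (.of K)} {h : U ⟶ Spec (.of K)}
    (hs : T.Sequence v f g h) :
    (v ∈ T.Ord val Z g → v ∈ T.Ord val X f → v ∈ T.Ord val U h) ∧
    (v ∈ T.Ord val Z g → v ∈ T.Ord val U h → v ∈ T.Ord val X f) ∧
    (v ∈ T.Ord val X f → v ∈ T.Ord val U h → v ∈ T.Ord val Z g) := by
  haveI := hT.finite
  obtain ⟨a, b, d, hc, he⟩ := hs
  refine ⟨fun hZ hX => ?_, fun hZ hU => ?_, fun hX hU => ?_⟩
  · intro n
    obtain ⟨n, rfl⟩ : ∃ n', n = n' + 1 := ⟨n - 1, by ring⟩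
    obtain ⟨ha, -, -⟩ := hc (n + 1)
    obtain ⟨-, hb, hd⟩ := hc n
    obtain ⟨-, hb', -⟩ := hc (n + 1)
    exact opposite_five hb.1 hd.1 ha.1 hb'.1 hb.2 hd.2 ha.2 hb'.2 (he n _ rfl).2.1
      (he n _ rfl).2.2 (he (n + 1) _ rfl).1 (hX n) (hZ n) (hX (n + 1)) (hZ (n + 1))
  · intro n
    obtain ⟨n, rfl⟩ : ∃ n', n = n' + 1 := ⟨n - 1, by ring⟩
    obtain ⟨-, -, hd⟩ := hc n
    obtain ⟨ha, hb, hd'⟩ := hc (n + 1)
    exact opposite_five hd.1 ha.1 hb.1 hd'.1 hd.2 ha.2 hb.2 hd'.2 (he n _ rfl).2.2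
      (he (n + 1) _ rfl).1 (he (n + 1) _ rfl).2.1 (hZ n) (hU (n + 1)) (hZ (n + 1))
      (hU (n + 1 + 1))
  · intro n
    obtain ⟨ha, hb, hd⟩ := hc n
    obtain ⟨ha', -, -⟩ := hc (n + 1)
    exact opposite_five ha.1 hb.1 hd.1 ha'.1 ha.2 hb.2 hd.2 ha'.2 (he n _ rfl).1
      (he n _ rfl).2.1 (he n _ rfl).2.2 (hU n) (hX n) (hU (n + 1)) (hX (n + 1))

theorem ev_twoOfThree (hT : T.IsCohomology O c val) {G : Filter Pl} (hG : G ≤ O) :
    TwoOfThree (SepFinType K) (T.Ev val G) := by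
  intro X Z U f i j hf hi hj hr
  have hs : ∀ᶠ v in G, T.Sequence v f (i ≫ f) (j ≫ f) :=
    hG (hT.longExact X Z U f i j hf hi hj hr)
  refine ⟨fun h1 h3 => ?_, fun h1 h3 => ?_, fun h1 h3 => ?_⟩
  · filter_upwards [hs, h1, h3] with v hv h1 h3
    exact (ord_sequence hT hv).1 h1 h3
  · filter_upwards [hs, h1, h3] with v hv h1 h3
    exact (ord_sequence hT hv).2.1 h1 h3
  · filter_upwards [hs, h1, h3] with v hv h1 h3
    exact (ord_sequence hT hv).2.2 h1 h3

theorem ev_bundle (hT : T.IsCohomology O c val) {G : Filter Pl} (hG : G ≤ O) :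
    BundleInvariant (SepFinType K) (T.Ev val G) := by
  intro r E' X π f hX hE hπ
  have hs := hG (hT.bundle r E' X π f hX hE hπ)
  have key : ∀ᶠ v in G, (v ∈ T.Ord val E' (π ≫ f) ↔ v ∈ T.Ord val X f) := by
    filter_upwards [hs] with v hv
    constructor
    · intro h n
      exact (opposite_twist (hT.norm v) (hv n _ rfl)).2 (h _)
    · intro h n
      obtain ⟨n, rfl⟩ : ∃ n', n = n' + 2 * (r : ℤ) := ⟨n - 2 * r, by ring⟩
      exact (opposite_twist (hT.norm v) (hv n _ rfl)).1 (h _)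
  constructor
  · intro h
    filter_upwards [key, h] with v hv h'
    exact hv.1 h'
  · intro h
    filter_upwards [key, h] with v hv h'
    exact hv.2 h'

/-- one smooth affine cubic hypersurface which controls two others -/
theorem exists_two (hT : T.IsCohomology O c val) {σ₁ σ₂ : Type} [Fintype σ₁] [Fintype σ₂]
    (F₁ : MvPolynomial σ₁ K) (F₂ : MvPolynomial σ₂ K) :
    ∃ (σ : Type) (_ : Fintype σ) (F : MvPolynomial σ K), IsSmoothCubic F ∧
      ∀ᶠ v in O, v ∈ T.Ord val _ (hyp F) → v ∈ T.Ord val _ (hyp F₁) ∧ v ∈ T.Ord val _ (hyp F₂) := by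
  let B₁ := MvPolynomial σ₁ K ⧸ Ideal.span {F₁}
  let B₂ := MvPolynomial σ₂ K ⧸ Ideal.span {F₂}
  haveI : Algebra.FiniteType K B₁ := inferInstance
  haveI : Algebra.FiniteType K B₂ := inferInstance
  haveI : Algebra.FiniteType K (B₁ × B₂) := inferInstance
  obtain ⟨σ, κ, hσ, hκ, g, hg, ⟨e⟩⟩ := exists_quadratic K (B₁ × B₂)
  refine ⟨κ ⊕ σ, inferInstance, bigPoly g, isSmoothCubic_bigPoly g hg, ?_⟩
  let G : Filter Pl := gen O (fun _ : Unit => T.Ord val _ (hyp (bigPoly g)))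
  have hG : G ≤ O := gen_le _ _
  have h0 : T.Ev val G _ (hyp (bigPoly g)) :=
    mem_gen O (fun _ : Unit => T.Ord val _ (hyp (bigPoly g))) ()
  have hB : T.Ev val G (Spec (.of (B₁ × B₂)))
      (Spec.map (CommRingCat.ofHom (algebraMap K (B₁ × B₂)))) :=
    g_affine (ev_twoOfThree hT hG) (ev_bundle hT hG) (hG hT.point) (B₁ × B₂) g e h0
  have hBft : SepFinType K (Spec (.of (B₁ × B₂)))
      (Spec.map (CommRingCat.ofHom (algebraMap K (B₁ × B₂)))) :=
    (cls_sepFinType K).affine _ inferInstance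
  -- the two factors
  let p₁ : (Spec (.of B₁) : Scheme.{0}) ⟶ Spec (.of (B₁ × B₂)) :=
    Spec.map (CommRingCat.ofHom (RingHom.fst B₁ B₂))
  let p₂ : (Spec (.of B₂) : Scheme.{0}) ⟶ Spec (.of (B₁ × B₂)) :=
    Spec.map (CommRingCat.ofHom (RingHom.snd B₁ B₂))
  have hp₁ : IsOpenImmersion p₁ := by
    letI := (RingHom.fst B₁ B₂).toAlgebra
    exact IsOpenImmersion.of_isLocalization (1, 0)
  have hp₂ : IsOpenImmersion p₂ := by
    letI := (RingHom.snd B₁ B₂).toAlgebra
    exact IsOpenImmersion.of_isLocalization (0, 1)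
  have hc₁ : IsClosedImmersion p₁ := IsClosedImmersion.spec_of_surjective _
    (fun b => ⟨(b, 0), rfl⟩)
  have hc₂ : IsClosedImmersion p₂ := IsClosedImmersion.spec_of_surjective _
    (fun b => ⟨(0, b), rfl⟩)
  have he₁ : p₁ ≫ Spec.map (CommRingCat.ofHom (algebraMap K (B₁ × B₂))) = hyp F₁ := by
    change Spec.map _ ≫ Spec.map _ = Spec.map _
    rw [← Spec.map_comp, ← CommRingCat.ofHom_comp]
    rfl
  have he₂ : p₂ ≫ Spec.map (CommRingCat.ofHom (algebraMap K (B₁ × B₂))) = hyp F₂ := by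
    change Spec.map _ ≫ Spec.map _ = Spec.map _
    rw [← Spec.map_comp, ← CommRingCat.ofHom_comp]
    rfl
  have h1 := hT.clopen _ _ _ p₁ hBft hc₁ hp₁
  have h2 := hT.clopen _ _ _ p₂ hBft hc₂ hp₂
  rw [he₁] at h1
  rw [he₂] at h2
  obtain ⟨o, ho, l, hol⟩ := hB
  filter_upwards [h1, h2, ho] with v h1 h2 ho hv
  have hvB : v ∈ T.Ord val (Spec (.of (B₁ × B₂)))
      (Spec.map (CommRingCat.ofHom (algebraMap K (B₁ × B₂)))) := hol ⟨ho, fun _ _ => hv⟩
  exact ⟨fun n => opposite_factor (h1 n) (hvB n), fun n => opposite_factor (h2 n) (hvB n)⟩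

/-- the smooth affine cubic hypersurfaces -/
structure Cubic (K : Type) [Field K] where
  σ : Type
  [fin : Fintype σ]
  F : MvPolynomial σ K
  smooth : IsSmoothCubic F

attribute [instance] Cubic.fin

/-- one smooth affine cubic hypersurface which controls finitely many others -/
theorem exists_list (hT : T.IsCohomology O c val) (l : List (Cubic K)) :
    ∃ C : Cubic K, ∀ᶠ v in O, v ∈ T.Ord val _ (hyp C.F) →
      ∀ D ∈ l, v ∈ T.Ord val _ (hyp D.F) := by
  induction l with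
  | nil =>
    refine ⟨⟨Empty, 1, ⟨by rw [totalDegree_one]; exact Nat.zero_le _, ?_⟩⟩,
      Filter.Eventually.of_forall fun v _ D hD => absurd hD List.not_mem_nil⟩
    rw [Ideal.eq_top_iff_one]
    exact Ideal.subset_span (Or.inl rfl)
  | cons D l ih =>
    obtain ⟨C, hC⟩ := ih
    obtain ⟨σ, hσ, F, hF, h⟩ := exists_two hT C.F D.F
    refine ⟨⟨σ, F, hF⟩, ?_⟩
    filter_upwards [hC, h] with v hC h hv D' hD'
    rcases List.mem_cons.1 hD' with rfl | hD'
    · exact (h hv).2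
    · exact hC (h hv).1 D' hD'

/-- pairs of a scheme and a structure morphism -/
structure Obj (K : Type) [Field K] (S : SchProp K) where
  X : Scheme.{0}
  f : X ⟶ Spec (.of K)
  ft : SepFinType K X f
  mem : S X f

/-- **Ordinary primes and cubic hypersurfaces.** -/
theorem main (hT : T.IsCohomology O c val) {L : Set Pl → Prop} (hL : IsLargeness O L)
    {S : SchProp K} (hM : Models S) :
    [∀ (k : ℕ) (X : Fin k → Scheme.{0}) (f : ∀ i, X i ⟶ Spec (.of K)),
       (∀ i, SepFinType K (X i) (f i) ∧ S (X i) (f i)) → L (⋂ i, T.Ord val (X i) (f i)),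
     ∀ (k : ℕ) (X : Fin k → Scheme.{0}) (f : ∀ i, X i ⟶ Spec (.of K)),
       (∀ i, SepFinType K (X i) (f i)) → L (⋂ i, T.Ord val (X i) (f i)),
     ∀ (σ : Type) [Fintype σ] (F : MvPolynomial σ K), IsSmoothCubic F →
       L (T.Ord val _ (hyp F))].TFAE := by
  tfae_have 2 → 1 := fun h k X f hX => h k X f fun i => (hX i).1
  tfae_have 1 → 3 := by
    intro h σ _ F hF
    let A : Obj K S → Set Pl := fun x => T.Ord val x.X x.f
    let G := gen O A
    have hG : G ≤ O := gen_le _ _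
    have h1 : ∀ X f, SepFinType K X f → S X f → T.Ev val G X f :=
      fun X f hf hX => mem_gen O A ⟨X, f, hf, hX⟩
    have h2' : ∀ (σ : Type) [Fintype σ] (F : MvPolynomial σ K), IsSmoothCubic F →
        T.Ev val G _ (hyp F) :=
      ((tfae_cubic (ev_twoOfThree hT hG) (ev_bundle hT hG) hM).out 0 2).1 h1
    have h2 : T.Ev val G _ (hyp F) := h2' σ F hF
    obtain ⟨o, ho, l, hol⟩ := h2
    have h3 := h l.length (fun i => (l.get i).X) (fun i => (l.get i).f)
      (fun i => ⟨(l.get i).ft, (l.get i).mem⟩)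
    refine hL.1 _ _ (hL.2 _ o ho h3) ?_
    rintro v ⟨hv, hvo⟩
    refine hol ⟨hvo, fun x hx => ?_⟩
    obtain ⟨i, rfl⟩ := List.mem_iff_get.1 hx
    exact Set.mem_iInter.1 hv i
  tfae_have 3 → 2 := by
    intro h k X f hX
    let A : Cubic K → Set Pl := fun C => T.Ord val _ (hyp C.F)
    let G := gen O A
    have hG : G ≤ O := gen_le _ _
    have h1 : ∀ (σ : Type) [Fintype σ] (F : MvPolynomial σ K), IsSmoothCubic F →
        T.Ev val G _ (hyp F) := fun σ _ F hF => mem_gen O A ⟨σ, F, hF⟩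
    have h2 : ∀ X f, SepFinType K X f → T.Ev val G X f :=
      fun X f hf => p_all (cls_sepFinType K) (ev_twoOfThree hT hG) (ev_bundle hT hG) h1 X f hf
    have h3 : (⋂ i, T.Ord val (X i) (f i)) ∈ G :=
      Filter.iInter_mem.2 fun i => h2 _ _ (hX i)
    obtain ⟨o, ho, l, hol⟩ := h3
    obtain ⟨C, hC⟩ := exists_list hT l
    have h4 := h C.σ C.F C.smooth
    refine hL.1 _ _ (hL.2 _ _ (Filter.inter_mem ho hC) h4) ?_
    rintro v ⟨hv, hvo, hvC⟩
    exact hol ⟨hvo, hvC hv⟩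
  tfae_finish

end FilteredCohomology

end Pool.Agent.R905.OR
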