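import Pool.Agent.R905.OR.Main
import Pool.Agent.R905.OR.Dens

/-!
# Ordinary primes: single varieties, and direct factors
-/

set_option autoImplicit false

open AlgebraicGeometry CategoryTheory Pool.Agent.R904.CU Pool.Agent.R905.WM

namespace Pool.Agent.R905.OR

/-- A family of spaces with an operator `φ` and a filtration `F` for every place `v`, to be thought of
as the crystalline realizations of motives `M` in a class `Ob`. -/
structure Realizations (Pl : Type) (E : Pl → Type) [∀ v, Field (E v)] (Ob : Type 1) where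
  R : Pl → Ob → Type
  [group : ∀ v M, AddCommGroup (R v M)]
  [module : ∀ v M, Module (E v) (R v M)]
  φ : ∀ v M, Module.End (E v) (R v M)
  F : ∀ v M, ℤ → Submodule (E v) (R v M)

attribute [instance] Realizations.group Realizations.module

/-- the places at which `M` is ordinary -/
def Realizations.Ord {Pl : Type} {E : Pl → Type} [∀ v, Field (E v)] {Ob : Type 1}
    (W : Realizations Pl E Ob) (val : ∀ v, AddValuation (E v) (WithTop ℝ)) (M : Ob) : Set Pl :=
  {v | Opposite (val v) (W.φ v M) (W.F v M)}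

namespace FilteredCohomology

section defs

variable {K : Type} [Field K] {Pl : Type} {E : Pl → Type} [∀ v, Field (E v)]
  (T : FilteredCohomology K Pl E) (O : Filter Pl) (val : ∀ v, AddValuation (E v) (WithTop ℝ))

/-- For all `X`, `Y` in the class `S` there is a `Z` in `S` (their disjoint union or product) such that
at almost all places at which `Z` is ordinary, `X` and `Y` are ordinary. -/
def Joint (S : SchProp K) : Prop :=
  ∀ (X Y : Scheme.{0}) (f : X ⟶ Spec (.of K)) (g : Y ⟶ Spec (.of K)), SepFinType K X f → S X f →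
    SepFinType K Y g → S Y g → ∃ (Z : Scheme.{0}) (h : Z ⟶ Spec (.of K)), SepFinType K Z h ∧
      S Z h ∧ ∀ᶠ v in O, v ∈ T.Ord val Z h → v ∈ T.Ord val X f ∧ v ∈ T.Ord val Y g

variable {Ob : Type 1} (W : Realizations Pl E Ob)

/-- every `M` is a direct factor of some `H^n(X)` with `X` in `S`, at almost all places -/
def IsFactorOf (S : SchProp K) : Prop :=
  ∀ M, ∃ (X : Scheme.{0}) (f : X ⟶ Spec (.of K)) (n : ℤ), SepFinType K X f ∧ S X f ∧
    ∀ᶠ v in O, IsFactor (W.φ v M) (W.F v M) (T.φ v X f n) (T.F v X f n)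

/-- every `H^n(X)` with `X` in `S` is a direct factor of some `M`, at almost all places, and `H^n(X)`
is zero for almost all `n` -/
def Contains (S : SchProp K) : Prop :=
  ∀ (X : Scheme.{0}) (f : X ⟶ Spec (.of K)), SepFinType K X f → S X f →
    (∀ n, ∃ M, ∀ᶠ v in O, IsFactor (T.φ v X f n) (T.F v X f n) (W.φ v M) (W.F v M)) ∧
    ∃ A : Finset ℤ, ∀ᶠ v in O, ∀ n, n ∉ A → Subsingleton (T.H v X f n)

end defs

/-- for all `M`, `M'` there is an `M''` (their tensor product or direct sum) such that at almost all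
places at which `M''` is ordinary, `M` and `M'` are ordinary -/
def _root_.Pool.Agent.R905.OR.Realizations.Joint {Pl : Type} {E : Pl → Type} [∀ v, Field (E v)]
    {Ob : Type 1} (W : Realizations Pl E Ob) (O : Filter Pl)
    (val : ∀ v, AddValuation (E v) (WithTop ℝ)) : Prop :=
  ∀ M M', ∃ M'', ∀ᶠ v in O, v ∈ W.Ord val M'' → v ∈ W.Ord val M ∧ v ∈ W.Ord val M'

variable {K : Type} [Field K] {Pl : Type} {E : Pl → Type} [∀ v, Field (E v)]
  [∀ v, CharZero (E v)] [∀ v, IsAlgClosed (E v)] {T : FilteredCohomology K Pl E}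
  {O : Filter Pl} {c : ∀ v, E v} {val : ∀ v, AddValuation (E v) (WithTop ℝ)}

omit [∀ v, CharZero (E v)] [∀ v, IsAlgClosed (E v)] in
theorem family_of_single {L : Set Pl → Prop} (hL : IsLargeness O L) {S : SchProp K}
    (hM : Models S) (hJ : T.Joint O val S)
    (h : ∀ X f, SepFinType K X f → S X f → L (T.Ord val X f)) (k : ℕ) (X : Fin k → Scheme.{0})
    (f : ∀ i, X i ⟶ Spec (.of K)) (hX : ∀ i, SepFinType K (X i) (f i) ∧ S (X i) (f i)) :
    L (⋂ i, T.Ord val (X i) (f i)) := by
  have key : ∀ (k : ℕ) (X : Fin k → Scheme.{0}) (f : ∀ i, X i ⟶ Spec (.of K)),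
      (∀ i, SepFinType K (X i) (f i) ∧ S (X i) (f i)) →
      ∃ (Z : Scheme.{0}) (g : Z ⟶ Spec (.of K)), SepFinType K Z g ∧ S Z g ∧
        ∀ᶠ v in O, v ∈ T.Ord val Z g → ∀ i, v ∈ T.Ord val (X i) (f i) := by
    intro k
    induction k with
    | zero =>
      intro X f _
      obtain ⟨U, Y, j, j', g, hU, hj, hj', hc, hg, hY, hSY, -⟩ :=
        hM (Spec (.of K)) (𝟙 _) ⟨inferInstance, inferInstance, inferInstance⟩ inferInstance
      exact ⟨Y, g, hg, hSY, Filter.Eventually.of_forall fun v _ i => i.elim0⟩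
    | succ k ih =>
      intro X f hX
      obtain ⟨Z, g, hg, hZ, hv⟩ := ih (fun i => X i.castSucc) (fun i => f i.castSucc)
        fun i => hX i.castSucc
      obtain ⟨Z', g', hg', hZ', hv'⟩ := hJ Z (X (Fin.last k)) g (f (Fin.last k)) hg hZ
        (hX (Fin.last k)).1 (hX (Fin.last k)).2
      refine ⟨Z', g', hg', hZ', ?_⟩
      filter_upwards [hv, hv'] with v hv hv' h i
      refine Fin.lastCases ?_ (fun i => ?_) i
      · exact (hv' h).2
      · exact hv (hv' h).1 i
  obtain ⟨Z, g, hg, hZ, hv⟩ := key k X f hX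
  refine hL.1 _ _ (hL.2 _ _ hv (h Z g hg hZ)) ?_
  rintro v ⟨h1, h2⟩
  exact Set.mem_iInter.2 (h2 h1)

/-- **Ordinary primes of single varieties.** -/
theorem main_single (hT : T.IsCohomology O c val) {L : Set Pl → Prop} (hL : IsLargeness O L)
    {S : SchProp K} (hM : Models S) (hJ : T.Joint O val S) :
    [∀ X f, SepFinType K X f → S X f → L (T.Ord val X f),
     ∀ X f, SepFinType K X f → L (T.Ord val X f),
     ∀ (σ : Type) [Fintype σ] (F : MvPolynomial σ K), IsSmoothCubic F →
       L (T.Ord val _ (hyp F))].TFAE := by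
  have h := main hT hL hM
  tfae_have 2 → 1 := fun h X f hf _ => h X f hf
  tfae_have 1 → 3 := by
    intro h1
    have h3 : ∀ (σ : Type) [Fintype σ] (F : MvPolynomial σ K), IsSmoothCubic F →
        L (T.Ord val _ (hyp F)) := (h.out 0 2).1 (family_of_single hL hM hJ h1)
    exact h3
  tfae_have 3 → 2 := by
    intro h3 X f hf
    have h2 : ∀ (k : ℕ) (X : Fin k → Scheme.{0}) (f : ∀ i, X i ⟶ Spec (.of K)),
       (∀ i, SepFinType K (X i) (f i)) → L (⋂ i, T.Ord val (X i) (f i)) := (h.out 2 1).1 h3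
    have h4 := h2 1 (fun _ => X) (fun _ => f) (fun _ => hf)
    rwa [Set.iInter_const] at h4
  tfae_finish

/-- **Ordinary primes of direct factors.** -/
theorem main_factor (hT : T.IsCohomology O c val) {L : Set Pl → Prop} (hL : IsLargeness O L)
    {S : SchProp K} (hM : Models S) {Ob : Type 1} {W : Realizations Pl E Ob}
    (hW : T.IsFactorOf O W S) (hW' : T.Contains O W S) (hJ : W.Joint O val)
    (hne : Nonempty Ob) :
    (∀ M, L (W.Ord val M)) ↔
     ∀ (σ : Type) [Fintype σ] (F : MvPolynomial σ K), IsSmoothCubic F →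
       L (T.Ord val _ (hyp F)) := by
  have h := main hT hL hM
  constructor
  · intro h0
    -- finitely many objects
    have hlist : ∀ l : List Ob, ∃ M, ∀ᶠ v in O, v ∈ W.Ord val M → ∀ M' ∈ l, v ∈ W.Ord val M' := by
      intro l
      induction l with
      | nil =>
        obtain ⟨M⟩ := hne
        exact ⟨M, Filter.Eventually.of_forall fun v _ M' hM' => absurd hM' List.not_mem_nil⟩
      | cons D l ih =>
        obtain ⟨M, hM⟩ := ih
        obtain ⟨M', hM'⟩ := hJ M D
        refine ⟨M', ?_⟩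
        filter_upwards [hM, hM'] with v h1 h2 hv N hN
        rcases List.mem_cons.1 hN with rfl | hN
        · exact (h2 hv).2
        · exact h1 (h2 hv).1 N hN
    -- one variety in `S`
    have hvar : ∀ X f, SepFinType K X f → S X f → ∃ l : List Ob, ∀ᶠ v in O,
        (∀ M ∈ l, v ∈ W.Ord val M) → v ∈ T.Ord val X f := by
      intro X f hf hX
      obtain ⟨h1, A, hA⟩ := hW' X f hf hX
      choose N hN using h1
      refine ⟨A.toList.map N, ?_⟩
      have h2 : ∀ᶠ v in O, ∀ n ∈ A, IsFactor (T.φ v X f n) (T.F v X f n) (W.φ v (N n))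
          (W.F v (N n)) := (Filter.eventually_all_finset A).2 fun n _ => hN n
      filter_upwards [h2, hA] with v h2 hA hv n
      by_cases hn : n ∈ A
      · exact opposite_factor (h2 n hn)
          (hv (N n) (List.mem_map.2 ⟨n, Finset.mem_toList.2 hn, rfl⟩))
      · haveI := hA n hn
        intro j
        constructor
        · rw [Submodule.disjoint_def]
          exact fun x _ _ => Subsingleton.elim _ _
        · rw [codisjoint_iff, eq_top_iff]
          intro x _
          rw [Subsingleton.elim x 0]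
          exact Submodule.zero_mem _
    have h1 : ∀ (k : ℕ) (X : Fin k → Scheme.{0}) (f : ∀ i, X i ⟶ Spec (.of K)),
        (∀ i, SepFinType K (X i) (f i) ∧ S (X i) (f i)) → L (⋂ i, T.Ord val (X i) (f i)) := by
      intro k X f hX
      choose l hl using fun i => hvar (X i) (f i) (hX i).1 (hX i).2
      obtain ⟨M, hM⟩ := hlist ((List.finRange k).flatMap l)
      have h5 : ∀ᶠ v in O, ∀ i, (∀ M ∈ l i, v ∈ W.Ord val M) → v ∈ T.Ord val (X i) (f i) :=
        Filter.eventually_all.2 hl
      refine hL.1 _ _ (hL.2 _ _ (hM.and h5) (h0 M)) ?_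
      rintro v ⟨hv, hv1, hv2⟩
      refine Set.mem_iInter.2 fun i => hv2 i fun M' hM' => hv1 hv M' ?_
      exact List.mem_flatMap.2 ⟨i, List.mem_finRange i, hM'⟩
    have h3 : ∀ (σ : Type) [Fintype σ] (F : MvPolynomial σ K), IsSmoothCubic F →
        L (T.Ord val _ (hyp F)) := (h.out 0 2).1 h1
    exact h3
  · intro h3 M
    obtain ⟨X, f, n, hf, hX, hv⟩ := hW M
    have h2 : ∀ (k : ℕ) (X : Fin k → Scheme.{0}) (f : ∀ i, X i ⟶ Spec (.of K)),
       (∀ i, SepFinType K (X i) (f i)) → L (⋂ i, T.Ord val (X i) (f i)) := (h.out 2 1).1 h3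
    have h4 := h2 1 (fun _ => X) (fun _ => f) (fun _ => hf)
    rw [Set.iInter_const] at h4
    refine hL.1 _ _ (hL.2 _ _ hv h4) ?_
    rintro v ⟨h5, h6⟩
    exact opposite_factor h6 (h5 n)

end FilteredCohomology

end Pool.Agent.R905.OR
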